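import Pool.Agent.T9h90.SP.Spec

set_option autoImplicit false

/-! Project SP, piece CS: the existence of copies is Sigma_1. -/

namespace Pool.Agent.T9h41.SP

open Pool.Agent.T9h90.SP Pool.Agent.Helper617.RM

universe u

set_option linter.unusedSectionVars false

variable {N : L2Structure.{u}} [IsModelRCA0 N]

/-- the context `x 0, ..., x (n-1), v 0, v 1, ...` -/
def mix (n : ℕ) (x v : ℕ → N.M) : ℕ → N.M := fun k => if k < n then x k else v (k - n)

theorem ex_n {P : Ctx N → Prop} (hP : S1 P) : ∀ n : ℕ,
    S1 (fun v : Ctx N => ∃ x : ℕ → N.M, P (mix n x v)) := by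
  intro n
  induction n with
  | zero =>
    refine hP.congr fun v => ?_
    have : ∀ x : ℕ → N.M, mix 0 x v = v := fun x => by
      funext k
      simp [mix]
    simp only [this]
    exact ⟨fun h => ⟨v, h⟩, fun ⟨_, h⟩ => h⟩
  | succ n ih =>
    have h1 : S1 (fun v : Ctx N => ∃ y : N.M, ∃ x : ℕ → N.M, P (mix n x (cons y v))) := by
      refine S1.ex (P := fun v y => ∃ x : ℕ → N.M, P (mix n x (cons y v))) ?_
      refine ih.congr fun w => ?_
      rw [cons_tail]
    refine h1.congr fun v => ?_
    constructor
    · rintro ⟨y, x, h⟩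
      refine ⟨fun k => if k < n then x k else y, ?_⟩
      convert h using 1
      funext k
      unfold mix
      by_cases hk : k < n
      · rw [if_pos (by omega), if_pos hk]
        exact if_pos hk
      · by_cases hk2 : k = n
        · subst hk2
          rw [if_pos (by omega), if_neg hk, Nat.sub_self]
          exact if_neg hk
        · rw [if_neg (by omega), if_neg hk]
          obtain ⟨m, hm⟩ : ∃ m, k - n = m + 1 := ⟨k - n - 1, by omega⟩
          have hm2 : k - (n + 1) = m := by omega
          rw [hm, hm2]
          rfl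
    · rintro ⟨x, h⟩
      refine ⟨x n, x, ?_⟩
      convert h using 1
      funext k
      unfold mix
      by_cases hk : k < n
      · rw [if_pos hk, if_pos (by omega)]
      · by_cases hk2 : k = n
        · subst hk2
          rw [if_neg (by omega), if_pos (by omega), Nat.sub_self]
          rfl
        · rw [if_neg hk, if_neg (by omega)]
          obtain ⟨m, hm⟩ : ∃ m, k - n = m + 1 := ⟨k - n - 1, by omega⟩
          have hm2 : k - (n + 1) = m := by omega
          rw [hm, hm2]
          rfl

theorem d0_all {P : ℕ → Ctx N → Prop} (h : ∀ i, D0 (P i)) : ∀ n : ℕ,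
    D0 (fun v => ∀ i, i < n → P i v) := by
  intro n
  induction n with
  | zero => exact D0.true.congr fun v => by simp
  | succ n ih =>
    refine (ih.and (h n)).congr fun v => ?_
    constructor
    · rintro ⟨h1, h2⟩ i hi
      rcases Nat.lt_succ_iff_lt_or_eq.1 hi with h3 | h3
      · exact h1 i h3
      · rw [h3]
        exact h2
    · intro h1
      exact ⟨fun i hi => h1 i (by omega), h1 n (by omega)⟩

theorem d0_some {P : ℕ → Ctx N → Prop} (h : ∀ i, D0 (P i)) (n : ℕ) :
    D0 (fun v => ∃ i, i < n ∧ P i v) := by
  refine (d0_all (P := fun i v => ¬ P i v) (fun i => (h i).not) n).not.congr fun v => ?_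
  push Not
  rfl

theorem rel2 {R : N.M → N.M → Prop} (h : D0 (fun v => R (v 0) (v 1))) {s t : Ctx N → N.M}
    (hs : Tm s) (ht : Tm t) : D0 (fun v => R (s v) (t v)) := by
  exact D0.comp (R := fun v => R (v 0) (v 1)) h (g := fun v => cons (s v) (cons (t v) v))
    (CM.cons hs (CM.cons ht CM.id))

theorem cs : S_CS.{u} := by
  intro N _ f hf p Q E hQ hE
  have hf' : ∀ (i j : ℕ) (b : Bool), D0 (fun w : Ctx N => f (w i) (w j) = b) := by
    intro i j b
    cases b with
    | true => exact rel2 (R := fun x y => f x y = true) hf (Tm.var i) (Tm.var j)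
    | false =>
      refine (rel2 (R := fun x y => f x y = true) hf (Tm.var i) (Tm.var j)).not.congr fun w => ?_
      simp
  have hC : D0 (fun w : Ctx N => (∀ i, i < p.size → Q (w p.size) (w i)) ∧
      ∀ j, j < p.size → ∀ i, i < j → w i < w j ∧ f (w i) (w j) = decide (p.val i < p.val j)) := by
    refine D0.and (d0_all (fun i => rel2 hQ (Tm.var _) (Tm.var _)) _) ?_
    refine d0_all (fun j => d0_all (fun i => ?_) _) _
    exact D0.and (D0.lt (Tm.var i) (Tm.var j)) (hf' i j _)
  have hmix1 : ∀ (x v : ℕ → N.M) (i : ℕ), i < p.size → mix p.size x v i = x i := fun x v i hi => by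
    unfold mix
    rw [if_pos hi]
  have hmix2 : ∀ (x v : ℕ → N.M), mix p.size x v p.size = v 0 := fun x v => by
    unfold mix
    rw [if_neg (lt_irrefl _), Nat.sub_self]
  have key : ∀ (x v : ℕ → N.M), ((∀ i, i < p.size → Q (mix p.size x v p.size) (mix p.size x v i)) ∧
      ∀ j, j < p.size → ∀ i, i < j → mix p.size x v i < mix p.size x v j ∧
        f (mix p.size x v i) (mix p.size x v j) = decide (p.val i < p.val j)) ↔
      Copy f {y | Q (v 0) y} p x := by
    intro x v
    constructor
    · rintro ⟨h1, h2⟩
      refine ⟨fun i hi => ?_, fun i j hij hj => ?_⟩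
      · have := h1 i hi
        rw [hmix2, hmix1 x v i hi] at this
        exact this
      · have := h2 j hj i hij
        rw [hmix1 x v i (hij.trans hj), hmix1 x v j hj] at this
        exact this
    · rintro ⟨h1, h2⟩
      refine ⟨fun i hi => ?_, fun j hj i hij => ?_⟩
      · rw [hmix2, hmix1 x v i hi]
        exact h1 i hi
      · rw [hmix1 x v i (hij.trans hj), hmix1 x v j hj]
        exact h2 i j hij hj
  constructor
  · refine (ex_n hC.S1 p.size).congr fun v => ?_
    exact exists_congr fun x => key x v
  · have hD : D0 (fun w : Ctx N => ((∀ i, i < p.size → Q (w p.size) (w i)) ∧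
        ∀ j, j < p.size → ∀ i, i < j → w i < w j ∧ f (w i) (w j) = decide (p.val i < p.val j)) ∧
        (∃ i, i < p.size ∧ w i = w p.size) ∧ ∀ j, j < p.size → E (w p.size) (w j)) := by
      refine D0.and hC (D0.and (d0_some (fun i => D0.eq (Tm.var i) (Tm.var _)) _) ?_)
      exact d0_all (fun j => rel2 hE (Tm.var _) (Tm.var j)) _
    refine (ex_n hD.S1 p.size).congr fun v => ?_
    refine exists_congr fun x => ?_
    rw [key x v, hmix2]
    refine and_congr_right fun _ => and_congr ?_ ?_
    · refine exists_congr fun i => and_congr_right fun hi => ?_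
      rw [hmix1 x v i hi]
    · refine forall_congr' fun j => imp_congr_right fun hj => ?_
      rw [hmix1 x v j hj]

end Pool.Agent.T9h41.SP
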