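import Pool.Agent.T9h90.SP.Spec

set_option autoImplicit false

/-! Project SP, piece TV: transversals of an inflation. -/

namespace Pool.Agent.T9h41.SP

open Pool.Agent.T9h90.SP

universe u

theorem unb_mono {M : Type u} [LT M] {A B : Set M} (h : A ⊆ B) (hA : Unb A) : Unb B := by
  intro b
  obtain ⟨y, hy, hby⟩ := hA b
  exact ⟨y, h hy, hby⟩

theorem copy_mono {M : Type u} [LT M] {f : M → M → Bool} {H H' : Set M} (h : H ⊆ H') {p : Sep}
    {x : ℕ → M} (hx : Copy f H p x) : Copy f H' p x :=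
  ⟨fun i hi => h (hx.1 i hi), hx.2⟩

theorem tv (hCP : S_CP.{u}) : S_TV.{u} := by
  intro M _ f H c b
  induction b generalizing H with
  | one =>
    intro q z W hW hz hyp
    have hz' : Copy f H q z := hz
    obtain ⟨i, hi, hU⟩ := hyp z hz' W subset_rfl hW
    refine ⟨fun _ => z i, ⟨fun _ _ => hz'.1 i hi, ?_⟩, fun _ _ => ⟨i, hi, rfl⟩, ?_⟩
    · intro i' j' h1 h2
      have h3 : j' < 1 := h2
      omega
    · exact unb_mono (fun w hw => ⟨hw.1, fun _ _ => hw.2⟩) hU
  | node d b1 b2 ih1 ih2 =>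
    intro q z W hW hz hyp
    have hz' : Copy f H (.node d (b1.infl q) (b2.infl q)) z := hz
    obtain ⟨hz1, hz2⟩ := (hCP M f H d (b1.infl q) (b2.infl q)).2 z hz'
    obtain ⟨u1, hu1, ht1, hU1⟩ := ih1 H q z W hW hz1 hyp
    have hsub : Nc f d H (b1.infl q).size z ⊆ H := fun w hw => hw.1
    obtain ⟨u2, hu2, ht2, hU2⟩ := ih2 (Nc f d H (b1.infl q).size z) q
      (fun i => z ((b1.infl q).size + i)) {w | w ∈ W ∧ ∀ i, i < b1.size → f (u1 i) w = c} hU1 hz2
      (fun x hx W' hW' hUW' => hyp x (copy_mono hsub hx) W' (fun w hw => (hW' hw).1) hUW')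
    have hu2' : Copy f (Nc f d H b1.size u1) b2 u2 := by
      refine ⟨fun i hi => ?_, hu2.2⟩
      obtain ⟨h1, h2⟩ := hu2.1 i hi
      refine ⟨h1, fun k hk => ?_⟩
      obtain ⟨j, hj, hkj⟩ := ht1 k hk
      rw [hkj]
      exact h2 j hj
    refine ⟨fun i => if i < b1.size then u1 i else u2 (i - b1.size),
      (hCP M f H d b1 b2).1 u1 u2 hu1 hu2', ?_, ?_⟩
    · intro i hi
      have hi' : i < b1.size + b2.size := hi
      show ∃ j, j < (b1.infl q).size + (b2.infl q).size ∧ _
      by_cases h : i < b1.size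
      · obtain ⟨j, hj, hij⟩ := ht1 i h
        refine ⟨j, by omega, ?_⟩
        simp only [if_pos h]
        exact hij
      · obtain ⟨j, hj, hij⟩ := ht2 (i - b1.size) (by omega)
        refine ⟨(b1.infl q).size + j, by omega, ?_⟩
        simp only [if_neg h]
        exact hij
    · refine unb_mono (fun w hw => ⟨hw.1.1, fun i hi => ?_⟩) hU2
      have hi' : i < b1.size + b2.size := hi
      by_cases h : i < b1.size
      · simp only [if_pos h]
        exact hw.1.2 i h
      · simp only [if_neg h]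
        exact hw.2 (i - b1.size) (by omega)

end Pool.Agent.T9h41.SP
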